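import Pool.Agent.Lib.MP_4964e1_lc.Fin71
import Pool.Agent.Lib.MP_4964e1_lc.Num86
import Pool.Agent.Lib.MP_4964e1_lc.TZ86

/-!
MP_4964e1_lc: the succinctness function `q` of finite graphs satisfies `q (n + 1) ≥ q n - 1`
for almost all `n`; more generally `|q (n + s) - q n| ≤ 1` outside a set of density zero, with an
explicit bound for the number of exceptions up to `N`.
-/

namespace Pool.Agent.Results.MP_4964e1_lc.AlmostAll

open Pool.Agent.Lib.MP_4964e1_lc

/-- (1) For every `s` the set of `n ≥ 1` with `|q (n + s) - q n| > 1` has natural density zero.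
(2) If `1 ≤ s ≤ tower h`, `2 (h + 8) ^ 2 + (h + 8) ≤ tower a` and `N ≥ tower (h + 10 + a)`, then
at most `3 s N / tower h` of the numbers `1 ≤ n ≤ N` satisfy `|q (n + s) - q n| > 1`. -/
theorem result :
    (∀ s : ℕ, Filter.Tendsto (fun N : ℕ => (Finset.card {n ∈ Finset.range N |
      1 ≤ n ∧ ¬ (q (n + s) ≤ q n + 1 ∧ q n ≤ q (n + s) + 1)} : ℝ) / N)
      Filter.atTop (nhds 0)) ∧
    (∀ s h a N : ℕ, 1 ≤ s → s ≤ tower h → 2 * ((h + 8) * (h + 8)) + (h + 8) ≤ tower a →
      tower (h + 10 + a) ≤ N →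
      (Finset.card {n ∈ Finset.Icc 1 N |
        ¬ (q (n + s) ≤ q n + 1 ∧ q n ≤ q (n + s) + 1)} : ℝ) ≤ 3 * s * N / tower h) := by
  constructor
  · intro h
    have h0 := MP_4964e1.N86.num86 q (fun m n hm hn => q_hub hm hn) (fun n hn => q_succ hn)
      q_tendsto h
    refine squeeze_zero (fun N => by positivity) (fun N => ?_) h0
    refine div_le_div_of_nonneg_right ?_ (Nat.cast_nonneg N)
    have h1 : ({n ∈ Finset.range N | 1 ≤ n ∧ ¬ (q (n + h) ≤ q n + 1 ∧ q n ≤ q (n + h) + 1)} :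
        Finset ℕ) ⊆ {n ∈ Finset.range N | ¬ (q (n + h) ≤ q n + 1 ∧ q n ≤ q (n + h) + 1)} := by
      intro n hn
      simp only [Finset.mem_filter] at hn ⊢
      exact ⟨hn.1, hn.2.2⟩
    exact_mod_cast Finset.card_le_card h1
  · intro s h a N hs hsh ha hN
    refine le_trans ?_ (almost_clean s h a N hs hsh ha hN)
    rw [Nat.cast_le]
    refine Finset.card_le_card ?_
    intro n hn
    simp only [Finset.mem_filter] at hn ⊢
    exact ⟨hn.1, by omega⟩

end Pool.Agent.Results.MP_4964e1_lc.AlmostAll
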