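import Pool.Agent.Lib.MP_4964e1_lc.TQ86

/-!
MP_4964e1_lc: effective counts, uniform in `C` and `N`, of the numbers `n ≤ N` at which the
succinctness function `q` of finite graphs drops by more than `C`.

Proof.  The hub graph (a vertex joined to all vertices of one graph and to none of the other) gives
`q (m + n + 1) ≤ max (q m) (q n) + 1`, and layered powerset graphs give `q b ≤ h + 7` for
`b ≤ tower h + 1`.  If `n < n'` are two drops by more than `C` from the same value
`l = q n = q n'`, then `n' = (n + 1) + b + 1` with `l ≤ max (q (n + 1)) (q b) + 1`, so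
`q b ≥ l - 1` and `n' - n > tower (l - 9)`.  Summing over the values `l` gives the bounds.
-/

namespace Pool.Agent.Results.MP_4964e1_lc.DropCount

open Pool.Agent.Lib.MP_4964e1_lc

/-- For `N ≤ tower H`: at most `2 (N + 1) / tower h + (H - h)` of the numbers `1 ≤ n ≤ N` satisfy
`q (n + 1) < q n - (h + 6)`, and for `C ≥ 1` at most `2 (N + 1) / 2 ^ C + min (log_2 N) (H + 4)`
satisfy `q (n + 1) < q n - C`. -/
theorem result (H N : ℕ) (hN : N ≤ tower H) :
    (∀ h : ℕ, (Finset.card {n ∈ Finset.Icc 1 N | q (n + 1) + (h + 6) < q n} : ℝ) ≤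
      2 * (N + 1) / tower h + (H - h : ℕ)) ∧
    (∀ C : ℕ, 1 ≤ C → (Finset.card {n ∈ Finset.Icc 1 N | q (n + 1) + C < q n} : ℝ) ≤
      2 * (N + 1) / 2 ^ C + min (Nat.log 2 N) (H + 4)) :=
  ⟨fun h => tower_count h H N hN, fun C hC => eff_tower C H N hC hN⟩

end Pool.Agent.Results.MP_4964e1_lc.DropCount
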