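import Pool.Agent.Lib.MP_4964e1_lc.Mod86

/-!
MP_4964e1_lc: windows of tower length.  The inequality `q (n + 1) ≤ q n + 1` extends to windows of
tower length, question Q1 is equivalent to a form in which one vertex less is replaced by
up to `tower (q n + C)` vertices less, and Q1 holds at `n` if an optimal graph with `n` vertices
has a module (homogeneous set) with at most `tower (q n + C)` vertices outside.
-/

namespace Pool.Agent.Results.MP_4964e1_lc.WindowForm

open Pool.Agent.Lib.MP_4964e1_lc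

theorem window {n m h : ℕ} (hn : 1 ≤ n) (h1 : 1 ≤ m) (hm : m ≤ tower h + 2) :
    q (n + m) ≤ max (q n) (h + 7) + 1 := by
  rcases Nat.eq_or_lt_of_le h1 with h2 | h2
  · subst h2
    exact (q_succ hn).trans (Nat.add_le_add_right (le_max_left _ _) 1)
  · have h3 := q_hub (m := n) (n := m - 1) hn (by omega)
    rw [show n + (m - 1) + 1 = n + m by omega] at h3
    have h4 := q_le_tower (h := h) (m := m - 1) (by omega) (by omega)
    exact h3.trans (Nat.add_le_add_right (max_le_max le_rfl h4) 1)

/-- (1) `q (n + m) ≤ max (q n) (h + 7) + 1` for `1 ≤ m ≤ tower h + 2`.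
(2) If `q n ≥ h + 9` then `q n' ≥ q n - 1` for all `n' < n ≤ n' + tower h + 2`.
(3) Q1 is equivalent to its window form.
(4) The graph induced on a module has at most the logical depth of the graph; if an optimal graph
on `n` vertices has a module `M` with at least one and at most `tower (q n + C)` vertices outside,
then `q (n - 1) ≤ q n + C + 8`. -/
theorem result :
    (∀ n m h : ℕ, 1 ≤ n → 1 ≤ m → m ≤ tower h + 2 → q (n + m) ≤ max (q n) (h + 7) + 1) ∧
    (∀ n n' h : ℕ, 1 ≤ n' → n' < n → n ≤ n' + (tower h + 2) → h + 9 ≤ q n →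
      q n ≤ q n' + 1) ∧
    ((∃ C : ℕ, ∀ n : ℕ, 1 ≤ n → q n ≤ q (n + 1) + C) ↔
      ∃ C : ℕ, ∀ n : ℕ, 2 ≤ n → ∃ n' : ℕ, 1 ≤ n' ∧ n' < n ∧ n ≤ n' + tower (q n + C) ∧
        q n' ≤ q n + C) ∧
    (∀ (n C : ℕ) (G : SimpleGraph (Fin n)) (M : Set (Fin n)), IsModule G M → M.Nonempty →
      logicalDepth (G.induce M) ≤ logicalDepth G ∧
      (logicalDepth G = q n → 1 ≤ Nat.card (Mᶜ : Set (Fin n)) →
        Nat.card (Mᶜ : Set (Fin n)) ≤ tower (q n + C) → q (n - 1) ≤ q n + C + 8)) := by
  refine ⟨fun n m h hn h1 hm => window hn h1 hm, ?_, ⟨?_, ?_⟩, ?_⟩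
  · intro n n' h h1 h2 h3 h4
    have h5 := window (n := n') (m := n - n') (h := h) h1 (by omega) (by omega)
    rw [show n' + (n - n') = n by omega] at h5
    omega
  · rintro ⟨C, hC⟩
    refine ⟨C, fun n hn => ⟨n - 1, by omega, by omega, ?_, ?_⟩⟩
    · have := one_le_tower (q n + C)
      omega
    · have := hC (n - 1) (by omega)
      rwa [show n - 1 + 1 = n by omega] at this
  · rintro ⟨C, hC⟩
    refine ⟨C + 8, fun n hn => ?_⟩
    obtain ⟨n', h1, h2, h3, h4⟩ := hC (n + 1) (by omega)
    rcases Nat.eq_or_lt_of_le (Nat.lt_succ_iff.1 h2) with h5 | h5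
    · subst h5
      omega
    · have h6 := window (n := n') (m := n - n') (h := q (n + 1) + C) h1 (by omega) (by omega)
      rw [show n' + (n - n') = n by omega] at h6
      omega
  · classical
    intro n C G M hM hne
    refine ⟨(logicalDepth_le_iff _ _).2 (dep_module ((logicalDepth_le_iff _ _).1 le_rfl) hM hne),
      fun hG h1 hs => module_step G hG M hM hne ?_ hs⟩
    by_contra h2
    rw [Set.not_nonempty_iff_eq_empty] at h2
    rw [h2] at h1
    simp at h1

end Pool.Agent.Results.MP_4964e1_lc.WindowForm
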